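import Pool.Agent.helper75.PSA.Spec

/-! # Row psa:UPB (MP_2b41e9_nt): few Salem numbers -/

set_option autoImplicit false

open Polynomial Finset

noncomputable section

namespace Pool.Agent.PSA

/-- the quadratic factor -/
def UPB_q (L : ℝ) : ℝ[X] := X ^ 2 - C L * X + 1

theorem UPB_q_coeff (L : ℝ) (n : ℕ) : (UPB_q L).coeff n =
    if n = 0 then 1 else if n = 1 then -L else if n = 2 then 1 else 0 := by
  unfold UPB_q
  rw [coeff_add, coeff_sub, coeff_X_pow, coeff_C_mul, coeff_X, coeff_one]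
  rcases n with _ | _ | _ | n
  · norm_num
  · norm_num
  · norm_num
  · have h1 : n + 1 + 1 + 1 ≠ 2 := by omega
    have h2 : 1 ≠ n + 1 + 1 + 1 := by omega
    have h3 : n + 1 + 1 + 1 ≠ 0 := by omega
    have h4 : n + 1 + 1 + 1 ≠ 1 := by omega
    simp [h1]

theorem UPB_q_deg (L : ℝ) : (UPB_q L).natDegree = 2 := by
  unfold UPB_q
  compute_degree!

theorem UPB_q_ne (L : ℝ) : UPB_q L ≠ 0 := by
  intro h
  have := UPB_q_deg L
  rw [h, natDegree_zero] at this
  norm_num at this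

theorem UPB_q_rev (L : ℝ) : (UPB_q L).reverse = UPB_q L := by
  ext n
  rw [coeff_reverse, UPB_q_deg]
  rcases n with _ | _ | _ | n
  · rw [revAt_le (by norm_num)]
    rw [UPB_q_coeff, UPB_q_coeff]
    norm_num
  · rw [revAt_le (by norm_num)]
  · rw [revAt_le (by norm_num)]
    rw [UPB_q_coeff, UPB_q_coeff]
    norm_num
  · rw [revAt_eq_self_of_lt (by omega)]

theorem UPB_mul_coeff (L : ℝ) (Q : ℝ[X]) (n : ℕ) : (UPB_q L * Q).coeff n =
    (if 2 ≤ n then Q.coeff (n - 2) else 0) - L * (if 1 ≤ n then Q.coeff (n - 1) else 0) + Q.coeff n := by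
  unfold UPB_q
  rw [add_mul, sub_mul, one_mul, coeff_add, coeff_sub, mul_assoc, coeff_C_mul, coeff_X_pow_mul']
  have h : (X * Q).coeff n = if 1 ≤ n then Q.coeff (n - 1) else 0 := by
    have := coeff_X_pow_mul' Q 1 n
    rwa [pow_one] at this
  rw [h]

theorem UPB_bound (L B : ℝ) (hL : 0 ≤ L) (Q : ℝ[X]) (hQ : ∀ i, |Q.coeff i| ≤ B) (n : ℕ) :
    |(UPB_q L * Q).coeff n| ≤ (L + 2) * B := by
  have hB : 0 ≤ B := le_trans (abs_nonneg _) (hQ 0)
  rw [UPB_mul_coeff]
  have h1 : |if 2 ≤ n then Q.coeff (n - 2) else 0| ≤ B := by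
    split_ifs
    · exact hQ _
    · rw [abs_zero]; exact hB
  have h2 : |if 1 ≤ n then Q.coeff (n - 1) else 0| ≤ B := by
    split_ifs
    · exact hQ _
    · rw [abs_zero]; exact hB
  have h3 := hQ n
  rw [abs_le] at h1 h2 h3 ⊢
  constructor <;> nlinarith

/-- the data of a Salem number -/
theorem UPB_data (hREC : REC_stmt) (hQQB : QQB_stmt) (k : ℕ) (X' β : ℝ) (hX : 1 ≤ X')
    (hβ : β ∈ SS (2 * k + 2) X') :
    (minpoly ℤ β).Monic ∧ (∀ i : ℕ, i ≤ 2 * k + 2 → (minpoly ℤ β).coeff (2 * k + 2 - i) = (minpoly ℤ β).coeff i) ∧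
    (∀ i : ℕ, |((minpoly ℤ β).coeff i : ℝ)| ≤ 4 ^ (k + 1) * X') ∧
    ∀ x : ℝ, 1 < x → aeval x (minpoly ℤ β) = 0 → x = β := by
  obtain ⟨hS, hd, hle⟩ := hβ
  obtain ⟨k', hk', hd', w, hw⟩ := hREC β hS
  have hkk : k' = k := by omega
  subst hkk
  obtain ⟨hQm, hQd, hQ0, hQs, hQb⟩ := hQQB k' w
  have hβ1 : 1 < β := hS.2.1
  have hβ0 : 0 < β := by linarith
  have hinv : β⁻¹ < 1 := inv_lt_one_of_one_lt₀ hβ1
  have hinv0 : 0 < β⁻¹ := inv_pos.2 hβ0
  have hF : (minpoly ℤ β).map (Int.castRingHom ℝ) = UPB_q (β + β⁻¹) * QQ w := by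
    have h1 : (minpoly ℤ β).map (Int.castRingHom ℝ) = (X - C β) * (X - C β⁻¹) * QQ w := hw
    rw [h1]
    congr 1
    unfold UPB_q
    have h2 : (C β : ℝ[X]) * C β⁻¹ = 1 := by
      rw [← C_mul, mul_inv_cancel₀ hβ0.ne', C_1]
    rw [C_add]
    linear_combination h2
  have hco : ∀ i, ((minpoly ℤ β).coeff i : ℝ) = (UPB_q (β + β⁻¹) * QQ w).coeff i := by
    intro i
    rw [← hF, coeff_map]
    rfl
  have hQrev : (QQ w).reverse = QQ w := by
    ext n
    rw [coeff_reverse, hQd]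
    by_cases hn : n ≤ 2 * k'
    · rw [revAt_le hn]
      exact hQs n hn
    · rw [revAt_eq_self_of_lt (by omega)]
  have hRrev : (UPB_q (β + β⁻¹) * QQ w).reverse = UPB_q (β + β⁻¹) * QQ w := by
    rw [reverse_mul_of_domain, UPB_q_rev, hQrev]
  have hRdeg : (UPB_q (β + β⁻¹) * QQ w).natDegree = 2 * k' + 2 := by
    rw [natDegree_mul (UPB_q_ne _) hQm.ne_zero, UPB_q_deg, hQd]
    ring
  refine ⟨minpoly.monic hS.1, ?_, ?_, ?_⟩
  · intro i hi
    have h1 : ((minpoly ℤ β).coeff (2 * k' + 2 - i) : ℝ) = ((minpoly ℤ β).coeff i : ℝ) := by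
      rw [hco, hco]
      conv_rhs => rw [← hRrev]
      rw [coeff_reverse, hRdeg, revAt_le hi]
    exact_mod_cast h1
  · intro i
    rw [hco]
    refine (UPB_bound _ _ (by positivity) _ hQb i).trans ?_
    have h4 : (0 : ℝ) < 4 ^ k' := by positivity
    calc (β + β⁻¹ + 2) * 4 ^ k' ≤ (4 * X') * 4 ^ k' := by
          refine mul_le_mul_of_nonneg_right ?_ h4.le
          linarith
      _ = 4 ^ (k' + 1) * X' := by ring
  · intro x hx hroot
    have h1 : ((minpoly ℤ β).map (Int.castRingHom ℝ)).eval x = 0 := by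
      rw [eval_map]
      exact hroot
    have h2 : (minpoly ℤ β).map (Int.castRingHom ℝ) = (X - C β) * (X - C β⁻¹) * QQ w := hw
    rw [h2, eval_mul, eval_mul, eval_sub, eval_sub, eval_X, eval_C, eval_C] at h1
    have h3 : (QQ w).eval x ≠ 0 := by
      unfold QQ
      rw [eval_prod]
      refine Finset.prod_ne_zero_iff.2 fun j _ => ?_
      have h4 : ((w j : Circle) : ℂ).re ≤ 1 := by
        have h5 := Complex.re_le_norm ((w j : Circle) : ℂ)
        rwa [Circle.norm_coe] at h5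
      have h6 : (X ^ 2 - C (2 * ((w j : Circle) : ℂ).re) * X + 1 : ℝ[X]).eval x =
          x ^ 2 - 2 * ((w j : Circle) : ℂ).re * x + 1 := by
        simp
      rw [h6]
      have h7 : 0 < (x - 1) ^ 2 := by
        have : 0 < x - 1 := by linarith
        positivity
      have h8 : ((w j : Circle) : ℂ).re * x ≤ 1 * x := mul_le_mul_of_nonneg_right h4 (by linarith)
      nlinarith
    rcases mul_eq_zero.1 h1 with h4 | h4
    · rcases mul_eq_zero.1 h4 with h5 | h5
      · linarith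
      · exfalso
        linarith
    · exact absurd h4 h3

theorem UPB (hREC : REC_stmt) (hQQB : QQB_stmt) : UPB_stmt := by
  classical
  intro k hk
  refine ⟨(3 * 4 ^ (k + 1)) ^ (k + 1), by positivity, fun X' hX => ?_⟩
  set M : ℤ := ⌊(4 : ℝ) ^ (k + 1) * X'⌋ with hM
  have hM0 : 0 ≤ M := by
    refine Int.floor_nonneg.2 (by positivity)
  let T : Finset (Fin (k + 1) → ℤ) := Fintype.piFinset fun _ => Finset.Icc (-M) M
  let Φ : ℝ → (Fin (k + 1) → ℤ) := fun β i => (minpoly ℤ β).coeff (i.val + 1)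
  have hmaps : ∀ β ∈ SS (2 * k + 2) X', Φ β ∈ (T : Set (Fin (k + 1) → ℤ)) := by
    intro β hβ
    obtain ⟨-, -, hb, -⟩ := UPB_data hREC hQQB k X' β hX hβ
    rw [Finset.mem_coe, Fintype.mem_piFinset]
    intro i
    have h1 := abs_le.1 (hb (i.val + 1))
    rw [Finset.mem_Icc]
    constructor
    · have h2 : (-(minpoly ℤ β).coeff (i.val + 1) : ℤ) ≤ M := by
        rw [hM, Int.le_floor]
        push_cast
        linarith [h1.1]
      show -M ≤ (minpoly ℤ β).coeff (i.val + 1)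
      linarith
    · show (minpoly ℤ β).coeff (i.val + 1) ≤ M
      rw [hM, Int.le_floor]
      exact h1.2
  have hinj : Set.InjOn Φ (SS (2 * k + 2) X') := by
    intro β hβ β' hβ' h
    obtain ⟨hm, hs, -, hu⟩ := UPB_data hREC hQQB k X' β hX hβ
    obtain ⟨hm', hs', -, -⟩ := UPB_data hREC hQQB k X' β' hX hβ'
    have hd : (minpoly ℤ β).natDegree = 2 * k + 2 := hβ.2.1
    have hd' : (minpoly ℤ β').natDegree = 2 * k + 2 := hβ'.2.1
    have hlow : ∀ i : ℕ, 1 ≤ i → i ≤ k + 1 → (minpoly ℤ β).coeff i = (minpoly ℤ β').coeff i := by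
      intro i h1 h2
      have h3 := congrFun h (⟨i - 1, by omega⟩ : Fin (k + 1))
      have h4 : (minpoly ℤ β).coeff (i - 1 + 1) = (minpoly ℤ β').coeff (i - 1 + 1) := h3
      rwa [Nat.sub_add_cancel h1] at h4
    have htop : (minpoly ℤ β).coeff (2 * k + 2) = (minpoly ℤ β').coeff (2 * k + 2) := by
      have h1 : (minpoly ℤ β).coeff (2 * k + 2) = 1 := by
        have := hm.coeff_natDegree
        rwa [hd] at this
      have h2 : (minpoly ℤ β').coeff (2 * k + 2) = 1 := by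
        have := hm'.coeff_natDegree
        rwa [hd'] at this
      rw [h1, h2]
    have hP : minpoly ℤ β = minpoly ℤ β' := by
      ext i
      rcases Nat.lt_or_ge (2 * k + 2) i with h1 | h1
      · rw [coeff_eq_zero_of_natDegree_lt (by omega), coeff_eq_zero_of_natDegree_lt (by omega)]
      · rcases Nat.lt_or_ge (k + 1) i with h2 | h2
        · rcases Nat.eq_or_lt_of_le h1 with h3 | h3
          · rw [h3]
            exact htop
          · rw [← hs i h1, ← hs' i h1]
            exact hlow _ (by omega) (by omega)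
        · rcases Nat.eq_zero_or_pos i with h3 | h3
          · subst h3
            have e1 := hs 0 (by omega)
            have e2 := hs' 0 (by omega)
            rw [← e1, ← e2, Nat.sub_zero]
            exact htop
          · exact hlow i h3 h2
    have h5 : aeval β' (minpoly ℤ β) = 0 := by
      rw [hP]
      exact minpoly.aeval ℤ β'
    exact (hu β' hβ'.1.2.1 h5).symm
  refine ⟨Set.Finite.of_injOn hmaps hinj T.finite_toSet, ?_⟩
  have h1 : (SS (2 * k + 2) X').ncard ≤ T.card := by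
    rw [← Set.ncard_coe_finset]
    exact Set.ncard_le_ncard_of_injOn Φ hmaps hinj T.finite_toSet
  have h2 : T.card = (2 * M + 1).toNat ^ (k + 1) := by
    show (Fintype.piFinset fun _ : Fin (k + 1) => Finset.Icc (-M) M).card = _
    rw [Fintype.card_piFinset, Finset.prod_const, Finset.card_univ, Fintype.card_fin, Int.card_Icc]
    congr 2
    ring
  have h3 : ((2 * M + 1).toNat : ℝ) ≤ 3 * 4 ^ (k + 1) * X' := by
    have h4 : (((2 * M + 1).toNat : ℤ) : ℝ) = ((2 * M + 1 : ℤ) : ℝ) := by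
      rw [Int.toNat_of_nonneg (by linarith)]
    have h5 : ((2 * M + 1).toNat : ℝ) = 2 * (M : ℝ) + 1 := by
      rw [← Int.cast_natCast, h4]
      push_cast
      ring
    rw [h5]
    have h6 : (M : ℝ) ≤ 4 ^ (k + 1) * X' := Int.floor_le _
    have h7 : (1 : ℝ) ≤ 4 ^ (k + 1) * X' := by
      have h8 : (1 : ℝ) ≤ 4 ^ (k + 1) := one_le_pow₀ (by norm_num)
      nlinarith
    linarith
  calc ((SS (2 * k + 2) X').ncard : ℝ) ≤ (T.card : ℝ) := by exact_mod_cast h1
    _ = ((2 * M + 1).toNat : ℝ) ^ (k + 1) := by rw [h2]; push_cast; ring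
    _ ≤ (3 * 4 ^ (k + 1) * X') ^ (k + 1) := pow_le_pow_left₀ (Nat.cast_nonneg _) h3 _
    _ = (3 * 4 ^ (k + 1)) ^ (k + 1) * X' ^ (k + 1) := by rw [mul_pow]

end Pool.Agent.PSA
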